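import Pool.Agent.LSC.All

set_option autoImplicit false

namespace Pool.Agent.Results.MP_f3f922_nt.ArbitraryPartners

/-- **Elliott's conjecture at almost all scales for one structured function and arbitrary
partners.** Let `h 0, ..., h k` be distinct shifts. Let one of the multiplicative functions, `f j`,
be close to `χ (n) n ^ (i t)` on the primes in `(x ^ δ, x]`, where `χ` is a primitive character
modulo `q ≤ x ^ (1 - θ)` and `|t| ≤ x ^ C`; let `q > R` or `|t| > R * x ^ k` or let `f j` be at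
distance at least `R` from `χ (n) n ^ (i t)` on all primes up to `x`. All the other functions are
arbitrary. Then the mean values `(1 / y) ∑ (n ≤ y), ∏ f i (n + h i)` are small at almost all scales
`y` in `(x / ω, x]`, for every `ω` between a constant `W` and `x ^ (θ / 16)`. -/
theorem result : ∀ (k : ℕ) (h : Fin (k + 1) → ℕ), 1 ≤ k → Function.Injective h →
    ∀ (C : ℕ) (ε θ : ℝ), 0 < ε → 0 < θ → θ < 1 →
    ∃ (δ : ℝ) (R : ℕ) (W X : ℝ), 0 < δ ∧ ∀ x ω : ℝ, X ≤ x → W ≤ ω → ω ≤ x ^ (θ / 16) →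
    ∀ f : Fin (k + 1) → ArithmeticFunction ℂ,
      (∀ i, (f i).IsMultiplicative) → (∀ i n, ‖f i n‖ ≤ 1) →
      ∀ (j : Fin (k + 1)) (q : ℕ) (χ : DirichletCharacter ℂ q) (t : ℝ),
      1 ≤ q → (q : ℝ) ≤ x ^ (1 - θ) → χ.IsPrimitive → |t| ≤ x ^ C →
      ∑ p ∈ (Finset.Iic ⌊x⌋₊).filter (fun p : ℕ => p.Prime ∧ x ^ δ < p),
        (1 - (f j p * (starRingEnd ℂ) (χ (p : ZMod q) *
          (p : ℂ) ^ ((t : ℂ) * Complex.I))).re) / (p : ℝ) ≤ δ →
      (R < q ∨ R * x ^ k < |t| ∨ R ≤ ∑ p ∈ (Finset.Iic ⌊x⌋₊).filter Nat.Prime,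
        (1 - (f j p * (starRingEnd ℂ) (χ (p : ZMod q) *
          (p : ℂ) ^ ((t : ℂ) * Complex.I))).re) / (p : ℝ)) →
      ∑ y ∈ Finset.Ioc ⌊x / ω⌋₊ ⌊x⌋₊,
        ‖∑ n ∈ Finset.Icc 1 y, ∏ i, f i (n + h i)‖ / (y : ℝ) ^ 2 ≤ ε * Real.log ω :=
  Pool.Agent.LSC.all_RES

end Pool.Agent.Results.MP_f3f922_nt.ArbitraryPartners
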