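import Pool.Agent.TPK.All7

set_option autoImplicit false

namespace Pool.Agent.Results.MP_f3f922_nt.ExceptionalTwists

/-- **An arbitrary sequence, an arbitrary multiplicative function and `k` structured ones.** Let
`h 0, ..., h k` be distinct shifts, `k ≥ 1`. For every `ε` and `θ` there are `δ`, `J` and `B` such
that for every large `x`, every set `Q` of tuples of moduli, the least common multiple of the
moduli of any two of which is at most `x ^ (1 - θ)`, and every `D` with values in the unit disc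
there are at most `J` tuples `(ψ_1, ..., ψ_k, s_1, ..., s_k)` such that the following holds for all
tuples of characters `χ j` mod `q j`, `q ∈ Q`, and all real `t j`, `|t j| ≤ x ^ C`. Either every
`χ j` induces the same primitive character as `ψ_j` of one of the exceptional tuples, and
`|∑ (t_j - s_j) (h_j - h_0) ^ l| ≤ B x ^ l` for `l = 1, ..., k`, or, for all multiplicative functions
`f, g 0, ..., g (k - 1)` with values in the unit disc, `g j` close to `χ j (n) n ^ (i t j)` on the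
primes in `(x ^ δ, x]`, the average of `D (n) f (n + h 0) ∏ g j (n + h (j + 1))` over `n ≤ x` is at
most `ε` in absolute value. -/
theorem result : ∀ (k : ℕ) (h : Fin (k + 1) → ℕ), 1 ≤ k → Function.Injective h →
    ∀ (C ε θ : ℝ), 0 < ε → 0 < θ →
    ∃ (δ : ℝ) (J : ℕ) (B X : ℝ), 0 < δ ∧ ∀ x : ℝ, X ≤ x → ∀ Q : Set (Fin k → ℕ),
    (∀ q ∈ Q, ∀ q' ∈ Q,
      (Nat.lcm (Finset.univ.lcm q) (Finset.univ.lcm q') : ℝ) ≤ x ^ (1 - θ)) →
    ∀ D : ℕ → ℂ, (∀ n, ‖D n‖ ≤ 1) →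
    ∃ S : Finset (Σ r : Fin k → ℕ, (∀ j, DirichletCharacter ℂ (r j)) × (Fin k → ℝ)),
      S.card ≤ J ∧ (∀ e ∈ S, e.1 ∈ Q ∧ ∀ j, 1 ≤ e.1 j) ∧
      ∀ (q : Fin k → ℕ) (χ : ∀ j, DirichletCharacter ℂ (q j)) (t : Fin k → ℝ), q ∈ Q →
        (∀ j, 1 ≤ q j) → (∀ j, |t j| ≤ x ^ C) →
        (∃ e ∈ S, (∀ j, ∀ n : ℕ, n.Coprime (q j * e.1 j) → χ j n = e.2.1 j n) ∧
          ∀ l ∈ Finset.Icc 1 k,
            |∑ j, (t j - e.2.2 j) * ((h j.succ : ℝ) - h 0) ^ l| ≤ B * x ^ l) ∨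
        ∀ (f : ArithmeticFunction ℂ) (g : Fin k → ArithmeticFunction ℂ), f.IsMultiplicative →
          (∀ j, (g j).IsMultiplicative) → (∀ n, ‖f n‖ ≤ 1) → (∀ j n, ‖g j n‖ ≤ 1) →
          (∀ j, ∑ p ∈ (Finset.Iic ⌊x⌋₊).filter (fun p : ℕ => p.Prime ∧ x ^ δ < p),
            (1 - (g j p * (starRingEnd ℂ) (χ j (p : ZMod (q j)) *
              (p : ℂ) ^ ((t j : ℂ) * Complex.I))).re) / (p : ℝ) ≤ δ) →
          ‖∑ n ∈ Finset.Icc 1 ⌊x⌋₊, D n * f (n + h 0) * ∏ j, g j (n + h j.succ)‖ / x ≤ ε :=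
  Pool.Agent.TPK.all_ZFI

end Pool.Agent.Results.MP_f3f922_nt.ExceptionalTwists
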