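import Pool.Agent.TPK.All6
import Pool.Agent.TPK.OA3

set_option autoImplicit false

/-! The finite form of Tao's asymptotic Elliott conjecture, for tuples in which all functions but
one (any one, and this one is completely arbitrary) are close to twisted Dirichlet characters, of
moduli up to a power of `x`, on the primes in `(x ^ δ, x]`. The hypothesis of the conjecture on
`f 0` is needed only if all these characters and twists lie in its range. -/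

namespace Pool.Agent.Results.MP_f3f922_nt.OneArbitrary

theorem result : ∀ (k : ℕ) (h : Fin (k + 1) → ℕ), 1 ≤ k → Function.Injective h →
    ∀ (C : ℕ) (ε θ : ℝ), 0 < ε → 0 < θ →
    ∃ δ : ℝ, 0 < δ ∧ ∃ A₀ : ℝ, ∀ A : ℝ, 2 ≤ A → A₀ ≤ A → ∀ x : ℝ, A ≤ x →
    ∀ f : Fin (k + 1) → ArithmeticFunction ℂ,
      (∀ i, (f i).IsMultiplicative) → (∀ i n, ‖f i n‖ ≤ 1) →
      ∀ (j₀ : Fin (k + 1)) (q : Fin (k + 1) → ℕ) (χ : ∀ j, DirichletCharacter ℂ (q j))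
        (t : Fin (k + 1) → ℝ),
      (∀ j, j ≠ j₀ → 1 ≤ q j ∧ |t j| ≤ x ^ C ∧
        ∑ p ∈ (Finset.Iic ⌊x⌋₊).filter (fun p : ℕ => p.Prime ∧ x ^ δ < p),
          (1 - (f j p * (starRingEnd ℂ) (χ j (p : ZMod (q j)) *
            (p : ℂ) ^ ((t j : ℂ) * Complex.I))).re) / (p : ℝ) ≤ δ) →
      (((Finset.univ.erase j₀).lcm q : ℕ) : ℝ) ≤ x ^ (1 - θ) →
      ((∀ r : ℕ, 1 ≤ r → (r : ℝ) ≤ A → ∀ ψ : DirichletCharacter ℂ r, ∀ s : ℝ,
          |s| ≤ A * x ^ k →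
          A ≤ Real.sqrt (∑ p ∈ (Finset.Iic ⌊x⌋₊).filter Nat.Prime,
            (1 - (f 0 p * (starRingEnd ℂ) (ψ (p : ZMod r) *
              (p : ℂ) ^ ((s : ℂ) * Complex.I))).re) / (p : ℝ))) ∨
        ∃ j, j ≠ j₀ ∧ (A < (χ j).conductor ∨ A * x ^ k < |t j|)) →
      ‖∑ n ∈ Finset.Icc 1 ⌊x⌋₊, ∏ i, f i (n + h i)‖ / x ≤ ε :=
  Pool.Agent.TPK.prove_OA3 Pool.Agent.TPK.all_KFI6
    (Pool.Agent.Ell.Final.final (Pool.Agent.Ell.main_of_core Pool.Agent.Ell.p_CORE))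

end Pool.Agent.Results.MP_f3f922_nt.OneArbitrary
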