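import Mathlib
import Pool.Agent.Ell.Mert
import Pool.Agent.TAD.GMAM
import Pool.Agent.TAD.STEP
import Pool.Agent.TAD.OPN
import Pool.Agent.TAD.MEAN
import Pool.Agent.TAD.MCD
import Pool.Agent.TAD.ONE
import Pool.Agent.TAD.CLS
import Pool.Agent.TAD.NET
import Pool.Agent.TAD.CNT
import Pool.Agent.TAD.SPL
import Pool.Agent.TAD.STR
import Pool.Agent.TAD.FIX
import Pool.Agent.TAD.PAR
import Pool.Agent.TAD.MAIN0
import Pool.Agent.TAD.MAIN
import Pool.Agent.TAD.GRID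
import Pool.Agent.TAD.NETK
import Pool.Agent.TAD.MAINK

set_option autoImplicit false

namespace Pool.Agent.Results.MP_f3f922_nt.TwoAdversaries

open Finset
open scoped Classical

/-- **Elliott's conjecture for almost every function against two adversaries.** Let
`h 0, ..., h (k + 2)` be shifts, `h 0` different from `h 1` and `h 2`, and `ε > 0`. There are `A`,
`c > 0`, `C`, `N0` such that for all `N ≥ N0` and `Y ≥ (log N) ^ C` the following holds. Let `S` be a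
finite set of primes whose part in `[Y, N]` satisfies `∑ 1 / p ≥ A`, let `𝒟` be a set of at most
`exp (c Y)` sequences in the closed unit disc, and let `g 0, ..., g (k - 1)` be functions with
values in the closed unit disc. For `T ⊆ S` put `s_T (m) = ∏_{p ∈ T} (-1) ^ v_p(m)`. Then for all
`T ⊆ S` outside a proportion `exp (-c Y)` of the subsets,
`|∑_{n ≤ N} D n * s_T (n + h 0) * f 0 (n + h 1) * ... * f (k + 1) (n + h (k + 2))| ≤ ε N`
for all `D ∈ 𝒟` and all multiplicative `f 0, ..., f (k + 1)` with values in the closed unit disc at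
the same time, where `f 0` and `f 1` are arbitrary and `f (j + 2)` is prescribed (by `g j`) at the
powers of the primes `p > Y / (log N) ^ 2` only. -/
theorem result : ∀ (k : ℕ) (h : Fin (k + 3) → ℕ) (ε : ℝ), h 0 ≠ h 1 → h 0 ≠ h 2 → 0 < ε →
    ∃ (A c : ℝ) (C N0 : ℕ), 0 < c ∧ ∀ (N Y : ℕ) (S : Finset ℕ) (𝒟 : Finset (ℕ → ℂ))
      (g : Fin k → ℕ → ℂ), N0 ≤ N → (Real.log N) ^ C ≤ Y → (∀ p ∈ S, p.Prime) →
    A ≤ ∑ p ∈ S.filter (fun p => Y ≤ p ∧ p ≤ N), (1 / p : ℝ) → (∀ D ∈ 𝒟, ∀ n, ‖D n‖ ≤ 1) →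
    (#𝒟 : ℝ) ≤ Real.exp (c * Y) → (∀ j n, ‖g j n‖ ≤ 1) →
    (#(S.powerset.filter (fun T => ∃ D ∈ 𝒟, ∃ f : Fin (k + 2) → ArithmeticFunction ℂ,
      (∀ j, (f j).IsMultiplicative) ∧ (∀ j n, ‖f j n‖ ≤ 1) ∧
      (∀ (j : Fin k) (p e : ℕ), p.Prime → (Y : ℝ) / (Real.log N) ^ 2 < p →
        f j.succ.succ (p ^ e) = g j (p ^ e)) ∧
      ε * N < ‖∑ n ∈ Icc 1 N, D n * (∏ p ∈ T, (-1 : ℂ) ^ ((n + h 0).factorization p)) *
        ∏ j, f j (n + h j.succ)‖)) : ℝ) ≤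
      Real.exp (-(c * Y)) * 2 ^ #S := by
  have hSTEP := Pool.Agent.TAD.p_STEP Pool.Agent.TAD.p_GMAM
  have hMEAN := Pool.Agent.TAD.p_MEAN hSTEP Pool.Agent.TAD.p_OPN
  have hONE := Pool.Agent.TAD.p_ONE hMEAN Pool.Agent.TAD.p_MCD
  have hFIX := Pool.Agent.TAD.p_FIX hONE Pool.Agent.TAD.p_STR
  have hMAIN0 := Pool.Agent.TAD.p_MAIN0 Pool.Agent.TAD.p_CLS Pool.Agent.TAD.p_NET
    Pool.Agent.TAD.p_CNT Pool.Agent.TAD.p_SPL hFIX Pool.Agent.TAD.p_PAR
  exact Pool.Agent.TAD.p_MAINK (Pool.Agent.TAD.p_MAIN hMAIN0 Pool.Agent.Ell.p_MERT)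
    (Pool.Agent.TAD.p_NETK Pool.Agent.TAD.p_GRID)

end Pool.Agent.Results.MP_f3f922_nt.TwoAdversaries
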